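import Mathlib
import Pool.Agent.N36.EPS.Grp
import Pool.Agent.N36.EPS.Semi

set_option autoImplicit false

namespace Pool.Agent.Results.MP_3e83d2_al.NotAttained

open Pool.Agent.N36.EPS

/-- `ρ_k(G)`: the proportion of elements of `G` whose order divides `k`. -/
noncomputable def rho (k : ℕ) (G : Type) [Group G] : ℝ :=
  (Nat.card {g : G // orderOf g ∣ k} : ℝ) / (Nat.card G : ℝ)

/-- `ε_k`: the supremum of `ρ_k(G)` over all finite non-soluble groups `G`. -/
noncomputable def eps (k : ℕ) : ℝ :=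
  sSup {r : ℝ | ∃ (G : Type) (_ : Group G) (_ : Finite G), ¬ Group.IsSolvable G ∧ r = rho k G}

lemma rho_le_one (k : ℕ) (G : Type) [Group G] [Finite G] : rho k G ≤ 1 := by
  unfold rho
  have h0 : (0 : ℝ) < Nat.card G := by exact_mod_cast Nat.card_pos
  rw [div_le_one h0]
  exact_mod_cast Nat.card_le_card_of_injective (fun g : {g : G // orderOf g ∣ k} => g.1)
    Subtype.val_injective

lemma rho_lt_one (a : ℕ) (G : Type) [Group G] [Finite G] (hG : ¬ Group.IsSolvable G) :
    rho (2 ^ a) G < 1 := by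
  refine lt_of_le_of_ne (rho_le_one _ G) ?_
  intro h
  apply hG
  have h0 : (Nat.card G : ℝ) ≠ 0 := by
    have : 0 < Nat.card G := Nat.card_pos
    positivity
  unfold rho at h
  rw [div_eq_one_iff_eq h0] at h
  have h1 : Nat.card {g : G // orderOf g ∣ 2 ^ a} = Nat.card G := by exact_mod_cast h
  have hb : Function.Bijective (fun g : {g : G // orderOf g ∣ 2 ^ a} => g.1) :=
    (Nat.bijective_iff_injective_and_card _).2 ⟨Subtype.val_injective, h1⟩
  have hall : ∀ g : G, orderOf g ∣ 2 ^ a := by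
    intro g
    obtain ⟨x, hx⟩ := hb.2 g
    rw [← hx]
    exact x.2
  have hp : IsPGroup 2 G := fun g => ⟨a, orderOf_dvd_iff_pow_eq_one.1 (hall g)⟩
  haveI : Fact (Nat.Prime 2) := ⟨Nat.prime_two⟩
  haveI : Group.IsNilpotent G := hp.isNilpotent
  infer_instance

lemma not_exponent (a : ℕ) (G : Type) [Group G] [Finite G] (hG : ¬ Group.IsSolvable G) :
    ¬ Monoid.exponent G ∣ 2 ^ a := by
  intro h
  apply hG
  have hp : IsPGroup 2 G := fun g => ⟨a, orderOf_dvd_iff_pow_eq_one.1
    ((Monoid.order_dvd_exponent g).trans h)⟩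
  haveI : Fact (Nat.Prime 2) := ⟨Nat.prime_two⟩
  haveI : Group.IsNilpotent G := hp.isNilpotent
  infer_instance

/-- Finite non-soluble groups in which all but a proportion `2 ^ (-d)` of the elements have
order dividing `64`. -/
lemma exists_group (d : ℕ) : ∃ (G : Type) (_ : Group G) (_ : Finite G), ¬ Group.IsSolvable G ∧
    ∃ f : G →* Multiplicative (E d), Function.Surjective f ∧ ∀ g, f g ≠ 1 → g ^ 64 = 1 := by
  let F := GaloisField 3 2
  have hF : Nat.card F = 9 := by
    rw [GaloisField.card 3 2 (by norm_num)]; norm_num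
  haveI : Finite F := Nat.finite_of_card_ne_zero (by rw [hF]; norm_num)
  refine ⟨GS d (P (F := F)) P_one (P_mul hF), inferInstance, inferInstance, ?_,
    prH P_one (P_mul hF) 0, prH_surj _ _ _ (P_ex hF), fun g hg => pow_of_ne _ _ (P_pow hF) _ g hg⟩
  exact not_solvable _ _ (sl2_not_solvable hF) slHom slHom_inj slHom_P

lemma rho_big (a d : ℕ) (ha : 6 ≤ a) : ∃ (G : Type) (_ : Group G) (_ : Finite G),
    ¬ Group.IsSolvable G ∧ 1 - 1 / 2 ^ d ≤ rho (2 ^ a) G := by
  obtain ⟨G, _, _, hG, f, hf, hpow⟩ := exists_group d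
  refine ⟨G, inferInstance, inferInstance, hG, ?_⟩
  have hker : Nat.card f.ker * 2 ^ d = Nat.card G := by
    rw [← Subgroup.card_mul_index f.ker, Subgroup.index_ker, MonoidHom.range_eq_top.2 hf,
      Subgroup.card_top]
    congr 1
    simp [Nat.card_eq_fintype_card, ZMod.card]
  have hle : Nat.card G ≤ Nat.card {g : G // orderOf g ∣ 2 ^ a} + Nat.card f.ker := by
    classical
    have h1 : Nat.card G = Nat.card {g : G // orderOf g ∣ 2 ^ a}
        + Nat.card {g : G // ¬ orderOf g ∣ 2 ^ a} := by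
      rw [← Nat.card_sum]
      exact (Nat.card_congr (Equiv.sumCompl (fun g : G => orderOf g ∣ 2 ^ a))).symm
    have h2 : Nat.card {g : G // ¬ orderOf g ∣ 2 ^ a} ≤ Nat.card f.ker := by
      refine Nat.card_le_card_of_injective
        (fun g : {g : G // ¬ orderOf g ∣ 2 ^ a} => (⟨g.1, ?_⟩ : f.ker)) ?_
      · rw [MonoidHom.mem_ker]
        by_contra hne
        apply g.2
        have h3 := hpow g.1 hne
        have h4 : orderOf g.1 ∣ 2 ^ 6 := orderOf_dvd_of_pow_eq_one h3
        exact h4.trans (pow_dvd_pow 2 ha)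
      · intro x y hxy
        apply Subtype.ext
        exact congrArg (fun z : f.ker => z.1) hxy
    omega
  have h0 : (0 : ℝ) < Nat.card G := by exact_mod_cast Nat.card_pos
  unfold rho
  rw [le_div_iff₀ h0]
  have hkr : (Nat.card f.ker : ℝ) = (Nat.card G : ℝ) / 2 ^ d := by
    rw [eq_div_iff (by positivity)]
    exact_mod_cast hker
  have hler : (Nat.card G : ℝ) ≤ (Nat.card {g : G // orderOf g ∣ 2 ^ a} : ℝ) + Nat.card f.ker := by
    exact_mod_cast hle
  rw [hkr] at hler
  have : (1 - 1 / 2 ^ d : ℝ) * Nat.card G = Nat.card G - Nat.card G / 2 ^ d := by ring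
  rw [this]
  linarith

/-- For every `k = 2 ^ a` with `a ≥ 6` one has `ε_k = 1`, the supremum is not attained, and no
finite non-soluble group has exponent dividing `k`. -/
theorem result : ∀ a : ℕ, 6 ≤ a →
    eps (2 ^ a) = 1 ∧
    (∀ (G : Type) [Group G] [Finite G], ¬ Group.IsSolvable G → rho (2 ^ a) G < eps (2 ^ a)) ∧
    (∀ (G : Type) [Group G] [Finite G], ¬ Group.IsSolvable G →
      ¬ Monoid.exponent G ∣ 2 ^ a) := by
  intro a ha
  have heps : eps (2 ^ a) = 1 := by
    unfold eps
    apply le_antisymm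
    · apply csSup_le
      · obtain ⟨G, i1, i2, hG, _⟩ := rho_big a 0 ha
        exact ⟨_, G, i1, i2, hG, rfl⟩
      · rintro r ⟨G, _, _, _, rfl⟩
        exact rho_le_one _ G
    · have hbdd : BddAbove {r : ℝ | ∃ (G : Type) (_ : Group G) (_ : Finite G),
          ¬ Group.IsSolvable G ∧ r = rho (2 ^ a) G} := by
        refine ⟨1, ?_⟩
        rintro r ⟨G, _, _, _, rfl⟩
        exact rho_le_one _ G
      have h1 : ∀ d : ℕ, (1 - 1 / 2 ^ d : ℝ) ≤ sSup {r : ℝ | ∃ (G : Type) (_ : Group G)
          (_ : Finite G), ¬ Group.IsSolvable G ∧ r = rho (2 ^ a) G} := by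
        intro d
        obtain ⟨G, i1, i2, hG, hr⟩ := rho_big a d ha
        exact hr.trans (le_csSup hbdd ⟨G, i1, i2, hG, rfl⟩)
      have hlim : Filter.Tendsto (fun d : ℕ => (1 - 1 / 2 ^ d : ℝ)) Filter.atTop (nhds (1 - 0)) := by
        apply Filter.Tendsto.sub tendsto_const_nhds
        have := tendsto_pow_atTop_nhds_zero_of_lt_one (r := (1 / 2 : ℝ)) (by norm_num) (by norm_num)
        simpa [one_div, inv_pow] using this
      have := le_of_tendsto' hlim h1
      simpa using this
  refine ⟨heps, ?_, ?_⟩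
  · intro G _ _ hG
    rw [heps]
    exact rho_lt_one a G hG
  · intro G _ _ hG
    exact not_exponent a G hG

end Pool.Agent.Results.MP_3e83d2_al.NotAttained
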